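import Pool.Agent.W355.FR.Stm

/-!
Proof of `P_SMA`: few pairs with a small value.
-/

namespace Pool.Agent.W162.FR

open Polynomial Pool.Agent.W355.FR

lemma prod_lt (M : ℝ) (hM : 0 ≤ M) : ∀ s : Multiset ℝ, (∀ x ∈ s, M < x) → 0 < Multiset.card s →
    M ^ (Multiset.card s) < s.prod := by
  intro s
  induction s using Multiset.induction with
  | empty => intro _ h; simp at h
  | cons x t ih =>
    intro h _
    have hx : M < x := h x (Multiset.mem_cons_self x t)
    have ht : ∀ y ∈ t, M < y := fun y hy => h y (Multiset.mem_cons_of_mem hy)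
    rcases Nat.eq_zero_or_pos (Multiset.card t) with h0 | h0
    · have : t = 0 := Multiset.card_eq_zero.mp h0
      subst this
      simpa using hx
    · have := ih ht h0
      rw [Multiset.card_cons, Multiset.prod_cons, pow_succ, mul_comm]
      exact mul_lt_mul'' hx this hM (by positivity)

lemma root_near (g : ℂ[X]) (hg : 0 < g.natDegree) (hlc : 1 ≤ ‖g.leadingCoeff‖) (M : ℝ)
    (hM : 0 ≤ M) (a : ℂ) (ha : ‖g.eval a‖ ≤ M ^ g.natDegree) : ∃ θ ∈ g.roots, ‖a - θ‖ ≤ M := by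
  by_contra hcon
  push Not at hcon
  have hs : g.Splits := IsAlgClosed.splits g
  have h1 := hs.eval_eq_prod_roots a
  have hcard := hs.natDegree_eq_card_roots
  have h2 : M ^ g.natDegree < ((g.roots.map (fun θ => ‖a - θ‖))).prod := by
    have := prod_lt M hM (g.roots.map (fun θ => ‖a - θ‖)) (by
      intro x hx
      obtain ⟨θ, hθ, rfl⟩ := Multiset.mem_map.mp hx
      exact hcon θ hθ) (by rw [Multiset.card_map]; omega)
    rwa [Multiset.card_map, ← hcard] at this
  have h3 : ‖g.eval a‖ = ‖g.leadingCoeff‖ * ((g.roots.map (fun θ => ‖a - θ‖))).prod := by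
    rw [h1, norm_mul]
    congr 1
    have : ‖(Multiset.map (fun x => a - x) g.roots).prod‖ =
        (Multiset.map (fun x : ℂ => ‖x‖) (Multiset.map (fun x => a - x) g.roots)).prod :=
      map_multiset_prod (normHom : ℂ →*₀ ℝ) _
    rw [this, Multiset.map_map]
    rfl
  have h4 : 0 ≤ M ^ g.natDegree := by positivity
  nlinarith

lemma card_int (x r : ℝ) (hr : 0 ≤ r) (A : Finset ℤ) (hA : ∀ a ∈ A, |(a : ℝ) - x| ≤ r) :
    (A.card : ℝ) ≤ 2 * r + 1 := by
  have h1 : A ⊆ Finset.Icc ⌈x - r⌉ ⌊x + r⌋ := by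
    intro a ha
    have := abs_le.mp (hA a ha)
    rw [Finset.mem_Icc]
    constructor
    · apply Int.ceil_le.mpr; linarith
    · apply Int.le_floor.mpr; linarith
  have h2 := Finset.card_le_card h1
  rw [Int.card_Icc] at h2
  rcases le_or_gt (⌊x + r⌋ + 1 - ⌈x - r⌉) 0 with h | h
  · rw [Int.toNat_of_nonpos h] at h2
    have : A.card = 0 := by omega
    rw [this]; push_cast; linarith
  · have h3 : ((⌊x + r⌋ + 1 - ⌈x - r⌉).toNat : ℤ) = ⌊x + r⌋ + 1 - ⌈x - r⌉ := Int.toNat_of_nonneg h.le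
    have h4 : (A.card : ℤ) ≤ ⌊x + r⌋ + 1 - ⌈x - r⌉ := by rw [← h3]; exact_mod_cast h2
    have h5 : (A.card : ℝ) ≤ (⌊x + r⌋ : ℝ) + 1 - ⌈x - r⌉ := by exact_mod_cast h4
    have h6 := Int.floor_le (x + r)
    have h7 := Int.le_ceil (x - r)
    linarith

lemma card_near (g : ℂ[X]) (hg : 0 < g.natDegree) (hlc : 1 ≤ ‖g.leadingCoeff‖) (M : ℝ)
    (hM : 0 ≤ M) (A : Finset ℤ) (hA : ∀ a ∈ A, ‖g.eval (a : ℂ)‖ ≤ M ^ g.natDegree) :
    (A.card : ℝ) ≤ g.natDegree * (2 * M + 1) := by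
  classical
  have h1 : A ⊆ g.roots.toFinset.biUnion (fun θ => A.filter (fun a : ℤ => |(a : ℝ) - θ.re| ≤ M)) := by
    intro a ha
    obtain ⟨θ, hθ, h⟩ := root_near g hg hlc M hM a (hA a ha)
    rw [Finset.mem_biUnion]
    refine ⟨θ, Multiset.mem_toFinset.mpr hθ, Finset.mem_filter.mpr ⟨ha, ?_⟩⟩
    have := Complex.abs_re_le_norm ((a : ℂ) - θ)
    simp only [Complex.sub_re, Complex.intCast_re] at this
    linarith
  have h2 := (Finset.card_le_card h1).trans Finset.card_biUnion_le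
  have h3 : ((∑ θ ∈ g.roots.toFinset, (A.filter (fun a : ℤ => |(a : ℝ) - θ.re| ≤ M)).card : ℕ) : ℝ)
      ≤ ∑ θ ∈ g.roots.toFinset, (2 * M + 1) := by
    push_cast
    apply Finset.sum_le_sum
    intro θ _
    apply card_int θ.re M hM
    intro a ha
    exact (Finset.mem_filter.mp ha).2
  have h4 : (A.card : ℝ) ≤ ∑ θ ∈ g.roots.toFinset, (2 * M + 1) := le_trans (by exact_mod_cast h2) h3
  rw [Finset.sum_const, nsmul_eq_mul] at h4
  have h5 : g.roots.toFinset.card ≤ g.natDegree :=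
    (Multiset.toFinset_card_le _).trans (Polynomial.card_roots' g)
  have h6 : (g.roots.toFinset.card : ℝ) ≤ g.natDegree := by exact_mod_cast h5
  nlinarith

/-- the polynomial `a ↦ hv d P a b` over `ℂ` -/
noncomputable def gb (P : ℤ[X]) (b : ℤ) : ℂ[X] :=
  ∑ i ∈ Finset.range (P.natDegree + 1), C ((P.coeff i * b ^ (P.natDegree - i) : ℤ) : ℂ) * X ^ i

lemma gb_coeff (P : ℤ[X]) (b : ℤ) : (gb P b).coeff P.natDegree = (P.leadingCoeff : ℂ) := by
  unfold gb
  rw [Polynomial.finsetSum_coeff]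
  rw [Finset.sum_eq_single P.natDegree]
  · rw [Polynomial.coeff_C_mul, Polynomial.coeff_X_pow, if_pos rfl, mul_one, Nat.sub_self,
      pow_zero, mul_one]
    rfl
  · intro i _ hi
    rw [Polynomial.coeff_C_mul, Polynomial.coeff_X_pow, if_neg (Ne.symm hi), mul_zero]
  · intro h; simp at h

lemma gb_natDegree (P : ℤ[X]) (hP : P ≠ 0) (b : ℤ) : (gb P b).natDegree = P.natDegree := by
  apply Polynomial.natDegree_eq_of_le_of_coeff_ne_zero
  · apply Polynomial.natDegree_sum_le_of_forall_le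
    intro i hi
    refine (Polynomial.natDegree_C_mul_X_pow_le _ _).trans ?_
    have := Finset.mem_range.mp hi
    omega
  · rw [gb_coeff]
    exact_mod_cast Polynomial.leadingCoeff_ne_zero.mpr hP

lemma gb_eval (P : ℤ[X]) (a b : ℤ) : (gb P b).eval (a : ℂ) = ((hv P.natDegree P a b : ℤ) : ℂ) := by
  unfold gb hv
  rw [Polynomial.eval_finsetSum]
  push_cast
  apply Finset.sum_congr rfl
  intro i _
  simp only [Polynomial.eval_mul, Polynomial.eval_pow, Polynomial.eval_X, Polynomial.eval_C]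
  ring_nf

lemma gb_lc (P : ℤ[X]) (hP : P ≠ 0) (b : ℤ) : 1 ≤ ‖(gb P b).leadingCoeff‖ := by
  have : (gb P b).leadingCoeff = (P.leadingCoeff : ℂ) := by
    unfold Polynomial.leadingCoeff
    rw [gb_natDegree P hP b]
    exact gb_coeff P b
  rw [this, Complex.norm_intCast]
  have h : P.leadingCoeff ≠ 0 := Polynomial.leadingCoeff_ne_zero.mpr hP
  exact_mod_cast Int.one_le_abs h

/-- number of pairs with a small value -/
lemma count (P : ℤ[X]) (hP : 0 < P.natDegree) (H : ℕ) (M : ℝ) (hM : 0 ≤ M) (s : Finset (ℤ × ℤ))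
    (hs : s ⊆ box H)
    (hv' : ∀ x ∈ s, |((hv P.natDegree P x.1 x.2 : ℤ) : ℝ)| ≤ M ^ P.natDegree) :
    (s.card : ℝ) ≤ (2 * H + 1) * (P.natDegree * (2 * M + 1)) := by
  classical
  have hP0 : P ≠ 0 := by rintro rfl; simp at hP
  have h1 : s.card = ∑ b ∈ Finset.Icc (-(H : ℤ)) H, (s.filter (fun x => x.2 = b)).card := by
    apply Finset.card_eq_sum_card_fiberwise
    intro x hx
    have := hs hx
    unfold box at this
    simp only [Finset.mem_filter, Finset.mem_product] at this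
    exact this.1.2
  have h2 : ∀ b ∈ Finset.Icc (-(H : ℤ)) H, ((s.filter (fun x => x.2 = b)).card : ℝ) ≤
      P.natDegree * (2 * M + 1) := by
    intro b _
    have hinj : ((s.filter (fun x => x.2 = b)).image Prod.fst).card =
        (s.filter (fun x => x.2 = b)).card := by
      apply Finset.card_image_of_injOn
      intro x hx y hy hxy
      have hx' := (Finset.mem_filter.mp hx).2
      have hy' := (Finset.mem_filter.mp hy).2
      exact Prod.ext hxy (hx'.trans hy'.symm)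
    rw [← hinj, ← gb_natDegree P hP0 b]
    apply card_near (gb P b) (by rw [gb_natDegree P hP0 b]; exact hP) (gb_lc P hP0 b) M hM
    intro a ha
    obtain ⟨x, hx, rfl⟩ := Finset.mem_image.mp ha
    have hx1 := (Finset.mem_filter.mp hx).1
    have hx2 := (Finset.mem_filter.mp hx).2
    rw [gb_eval, gb_natDegree P hP0 b, Complex.norm_intCast, ← hx2]
    exact hv' x hx1
  have h3 : (s.card : ℝ) ≤ ∑ b ∈ Finset.Icc (-(H : ℤ)) H, ((P.natDegree : ℝ) * (2 * M + 1)) := by
    rw [h1]; push_cast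
    exact Finset.sum_le_sum h2
  rw [Finset.sum_const, nsmul_eq_mul, Int.card_Icc] at h3
  have h4 : (((H : ℤ) + 1 - -(H : ℤ)).toNat : ℝ) = 2 * H + 1 := by
    have : ((H : ℤ) + 1 - -(H : ℤ)).toNat = 2 * H + 1 := by omega
    rw [this]; push_cast; ring
  rwa [h4] at h3

open Filter Topology in
theorem sma : P_SMA := by
  intro P hP ε δ hε hδ
  set d := P.natDegree with hd
  have hdR : (0 : ℝ) < d := by exact_mod_cast hP
  have hlim : Tendsto (fun H : ℕ => 3 * (d : ℝ) * (2 * (H : ℝ) ^ (-(ε / d)) + (H : ℝ) ^ (-(1 : ℝ))))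
      atTop (𝓝 (3 * (d : ℝ) * (2 * 0 + 0))) := by
    apply Tendsto.const_mul
    apply Tendsto.add
    · apply Tendsto.const_mul
      exact (tendsto_rpow_neg_atTop (by positivity : 0 < ε / d)).comp tendsto_natCast_atTop_atTop
    · exact (tendsto_rpow_neg_atTop (by norm_num : (0 : ℝ) < 1)).comp tendsto_natCast_atTop_atTop
  have hlim' : Tendsto (fun H : ℕ => 3 * (d : ℝ) * (2 * (H : ℝ) ^ (-(ε / d)) + (H : ℝ) ^ (-(1 : ℝ))))
      atTop (𝓝 0) := by simpa using hlim
  have hev := (hlim'.eventually (gt_mem_nhds hδ)).and (eventually_ge_atTop 1)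
  obtain ⟨H₀, hH₀⟩ := eventually_atTop.mp hev
  refine ⟨H₀, fun H hH s hs hx => ?_⟩
  obtain ⟨h1, h2⟩ := hH₀ H hH
  have hHR : (1 : ℝ) ≤ H := by exact_mod_cast h2
  have hH0 : (0 : ℝ) < H := by linarith
  set M : ℝ := (H : ℝ) * (H : ℝ) ^ (-(ε / d)) with hMdef
  have hM0 : 0 ≤ M := by positivity
  have hMd : M ^ d = (H : ℝ) ^ ((d : ℝ) - ε) := by
    have : M = (H : ℝ) ^ (1 - ε / d) := by
      rw [hMdef, sub_eq_add_neg, Real.rpow_add hH0, Real.rpow_one]
    rw [this, ← Real.rpow_natCast, ← Real.rpow_mul hH0.le]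
    congr 1
    field_simp
  have hc := count P hP H M hM0 s hs (by
    intro x hxs
    rw [← hd, hMd]
    exact hx x hxs)
  rw [← hd] at hc
  have h5 : (2 * (H : ℝ) + 1) * ((d : ℝ) * (2 * M + 1)) ≤ 3 * H * (d * (2 * M + 1)) := by
    apply mul_le_mul_of_nonneg_right
    · linarith
    · positivity
  have h6 : 3 * (H : ℝ) * (d * (2 * M + 1)) =
      (3 * (d : ℝ) * (2 * (H : ℝ) ^ (-(ε / d)) + (H : ℝ) ^ (-(1 : ℝ)))) * H ^ 2 := by
    rw [hMdef, Real.rpow_neg_one]
    field_simp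
  have h7 : (3 * (d : ℝ) * (2 * (H : ℝ) ^ (-(ε / d)) + (H : ℝ) ^ (-(1 : ℝ)))) * H ^ 2 ≤ δ * H ^ 2 := by
    apply mul_le_mul_of_nonneg_right h1.le
    positivity
  linarith

end Pool.Agent.W162.FR

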